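import Pool.Agent.H62.CYC.DefsR
import Pool.Graph.R_seed8.Y482.CY.Ub

/-!
# Project CYC, GR: the growth of the binomials
-/

set_option autoImplicit false

namespace Pool.Agent.H49.CYC

open Finset Filter
open Pool.Agent.H62.CYC
open Pool.Agent.Y482.CY (sb sb_le)
open Pool.Agent.W707.TV (vh Rh Rh_pos)
open GapVol (lob lob_cont)
open scoped Real Topology

lemma norm_br (M k : ℕ) : ‖EvenVol.br (vh M) (k : ℤ)‖ = |sg M k| := by
  have h := Pool.Agent.W125.TV.norm_br_vh M k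
  rw [h]
  unfold sg
  have hR : Rh M = M + 1 / 2 := rfl
  congr 3
  rw [hR]
  have h1 : (M : ℝ) + 1 / 2 ≠ 0 := by positivity
  have h2 : 2 * (M : ℝ) + 1 ≠ 0 := by positivity
  rw [div_eq_div_iff h1 h2]
  ring

lemma norm_brf (M n : ℕ) : ‖EvenVol.brf (vh M) n‖ = |sf M n| := by
  unfold EvenVol.brf sf
  rw [norm_prod, abs_prod]
  refine prod_congr rfl fun j _ => ?_
  have := norm_br M (j + 1)
  push_cast at this
  exact this

lemma norm_sb (M n k : ℕ) : ‖sb (vh M) n k‖ = |sf M n / (sf M k * sf M (n - k))| := by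
  have e : ∀ n, ‖Pool.Agent.H550R3.Jones.brf (vh M) n‖ = |sf M n| := norm_brf M
  unfold sb
  rw [norm_div, norm_mul, e, e, e, abs_div, abs_mul]

lemma sg_pos {M : ℕ} {x : ℝ} (hx : 0 < x) (h : 2 * x < 2 * M + 1) : 0 < sg M x := by
  unfold sg
  have hp := Real.pi_pos
  have hM : (0 : ℝ) < 2 * M + 1 := by positivity
  refine mul_pos (by norm_num) (Real.sin_pos_of_pos_of_lt_pi (by positivity) ?_)
  rw [div_lt_iff₀ hM]
  nlinarith

lemma sg_neg {M : ℕ} {x : ℝ} (h : 2 * (M : ℝ) + 1 < 2 * x) (h' : x < 2 * M + 1) : sg M x < 0 := by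
  unfold sg
  have hp := Real.pi_pos
  have hM : (0 : ℝ) < 2 * M + 1 := by positivity
  have h1 : Real.sin (2 * π * x / (2 * M + 1)) = -Real.sin (2 * π * x / (2 * M + 1) - π) := by
    rw [Real.sin_sub_pi, neg_neg]
  have h2 : 0 < Real.sin (2 * π * x / (2 * M + 1) - π) := by
    refine Real.sin_pos_of_pos_of_lt_pi ?_ ?_
    · rw [sub_pos, lt_div_iff₀ hM]
      nlinarith
    · rw [sub_lt_iff_lt_add, div_lt_iff₀ hM]
      nlinarith
  rw [h1]
  linarith

lemma sg_nat_ne {M l : ℕ} (h0 : 0 < l) (h1 : l < 2 * M + 1) : sg M l ≠ 0 := by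
  rcases Nat.lt_or_ge (2 * l) (2 * M + 1) with h | h
  · refine (sg_pos (by exact_mod_cast h0) ?_).ne'
    exact_mod_cast h
  · refine (sg_neg ?_ ?_).ne
    · have : 2 * M + 1 < 2 * l := by omega
      exact_mod_cast this
    · exact_mod_cast h1

lemma sf_ne {M n : ℕ} (h : n < 2 * M + 1) : sf M n ≠ 0 := by
  unfold sf
  refine prod_ne_zero_iff.2 fun j hj => ?_
  have := sg_nat_ne (M := M) (l := j + 1) (by omega) (by have := mem_range.1 hj; omega)
  push_cast at this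
  exact this

lemma sf_pos {M n : ℕ} (h : n ≤ M) : 0 < sf M n := by
  unfold sf
  refine prod_pos fun j hj => sg_pos (by positivity) ?_
  have h1 : 2 * (j + 1) < 2 * M + 1 := by have := mem_range.1 hj; omega
  have h2 : ((2 * (j + 1) : ℕ) : ℝ) < ((2 * M + 1 : ℕ) : ℝ) := by exact_mod_cast h1
  push_cast at h2
  exact h2

lemma sf_add (M n i : ℕ) : sf M (n + i) = sf M n * ∏ j ∈ range i, sg M (((n + j : ℕ) : ℝ) + 1) := by
  unfold sf
  rw [prod_range_add]

lemma grC (M c i : ℕ) (h : c + i + 1 ≤ M) (h2 : M ≤ 2 * c) :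
    0 < (-1) ^ i * (sf M (2 * c + 2 * i + 1) / (sf M i * sf M (2 * c + i + 1))) := by
  have e : 2 * c + 2 * i + 1 = 2 * c + i + 1 + i := by ring
  have hne := sf_ne (M := M) (n := 2 * c + i + 1) (by omega)
  have hpos := sf_pos (M := M) (n := i) (by omega)
  rw [e, sf_add]
  have e2 : (-1) ^ i * ((sf M (2 * c + i + 1) * ∏ j ∈ range i, sg M (((2 * c + i + 1 + j : ℕ) : ℝ) + 1)) /
      (sf M i * sf M (2 * c + i + 1))) =
      (∏ j ∈ range i, (-sg M (((2 * c + i + 1 + j : ℕ) : ℝ) + 1))) / sf M i := by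
    rw [prod_neg, card_range]
    field_simp
  rw [e2]
  refine div_pos (prod_pos fun j hj => ?_) hpos
  have hj' := mem_range.1 hj
  rw [neg_pos]
  refine sg_neg ?_ ?_
  · have h3 : 2 * M + 1 < 2 * ((2 * c + i + 1 + j) + 1) := by omega
    have h4 : ((2 * M + 1 : ℕ) : ℝ) < ((2 * ((2 * c + i + 1 + j) + 1) : ℕ) : ℝ) := by exact_mod_cast h3
    push_cast at h4 ⊢
    exact h4
  · have h3 : (2 * c + i + 1 + j) + 1 < 2 * M + 1 := by omega
    have h4 : (((2 * c + i + 1 + j) + 1 : ℕ) : ℝ) < ((2 * M + 1 : ℕ) : ℝ) := by exact_mod_cast h3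
    push_cast at h4 ⊢
    exact h4

lemma grA (ε : ℝ) (hε : 0 < ε) : ∀ᶠ M : ℕ in atTop, ∀ n k : ℕ, k ≤ n → n < 2 * M + 1 →
    |sf M n / (sf M k * sf M (n - k))| ≤
      Real.exp ((2 * M + 1) / (2 * π) * (3 * lob (π / 3)) + ε * M) := by
  filter_upwards [Pool.Agent.W125.TV.brf_asymp (ε / 3) (by positivity)] with M hB n k hk hn
  have h := sb_le hB hk hn
  rw [norm_sb] at h
  refine h.trans (le_of_eq ?_)
  congr 1
  have hR : Rh M = M + 1 / 2 := rfl
  rw [GapVol.lob_dup, hR]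
  field_simp

lemma sb_ge {M n k : ℕ} {δ : ℝ} (hB : ∀ k : ℕ, k < 2 * M + 1 →
    |Real.log ‖EvenVol.brf (vh M) k‖ + Rh M / π * lob (π * k / Rh M)| ≤ δ * M) (hk : k ≤ n)
    (hn : n < 2 * M + 1) :
    Real.exp (Rh M / π * (lob (π * k / Rh M) + lob (π * ((n - k : ℕ) : ℝ) / Rh M) - lob (π * n / Rh M)) - 3 * (δ * M)) ≤
      |sf M n / (sf M k * sf M (n - k))| := by
  have h1 : 0 < |sf M n| := abs_pos.2 (sf_ne hn)
  have h2 : 0 < |sf M k| := abs_pos.2 (sf_ne (by omega))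
  have h3 : 0 < |sf M (n - k)| := abs_pos.2 (sf_ne (by omega))
  rw [abs_div, abs_mul]
  rw [← Real.le_log_iff_exp_le (div_pos h1 (mul_pos h2 h3)), Real.log_div h1.ne'
    (mul_pos h2 h3).ne', Real.log_mul h2.ne' h3.ne']
  have b1 := (abs_le.1 (hB n hn)).1
  have b2 := (abs_le.1 (hB k (by omega))).2
  have b3 := (abs_le.1 (hB (n - k) (by omega))).2
  rw [norm_brf] at b1 b2 b3
  rw [mul_sub, mul_add]
  linarith

lemma grB (ε : ℝ) (hε : 0 < ε) : ∀ᶠ M : ℕ in atTop, ∃ c i : ℕ, c + i + 1 ≤ M ∧ M ≤ 2 * c ∧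
    Real.exp ((2 * M + 1) / (2 * π) * (3 * lob (π / 3)) - ε * M) ≤
      |sf M (2 * c + 2 * i + 1) / (sf M i * sf M (2 * c + i + 1))| := by
  obtain ⟨δ, hδ, hu⟩ := Pool.Agent.W125.TV.lob_uc (show 0 < ε / 6 by positivity)
  have t3 : ∀ᶠ M : ℕ in atTop, 2 * π / (M : ℝ) < δ :=
    (tendsto_const_div_atTop_nhds_zero_nat (2 * π)).eventually (gt_mem_nhds hδ)
  filter_upwards [Pool.Agent.W125.TV.brf_asymp (ε / 6) (by positivity), t3, eventually_ge_atTop 12] with M hB hM hM1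
  obtain ⟨c, hc⟩ : ∃ c : ℕ, c = (M + 1) / 2 := ⟨_, rfl⟩
  obtain ⟨i, hi⟩ : ∃ i : ℕ, i = M / 3 := ⟨_, rfl⟩
  refine ⟨c, i, by omega, by omega, ?_⟩
  have hp := Real.pi_pos
  have hp3 := Real.pi_gt_three
  have hR := Rh_pos M
  have hRe : Rh M = M + 1 / 2 := rfl
  have hMr : (12 : ℝ) ≤ M := by exact_mod_cast hM1
  have h := sb_ge hB (n := 2 * c + 2 * i + 1) (k := i) (by omega) (by omega)
  have e : 2 * c + 2 * i + 1 - i = 2 * c + i + 1 := by omega
  rw [e] at h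
  refine (Real.exp_le_exp.2 ?_).trans h
  have hM0 : (0 : ℝ) < M := by linarith
  have hdel : 2 * π / Rh M < δ := by
    refine lt_of_le_of_lt ?_ hM
    exact div_le_div_of_nonneg_left (by positivity) hM0 (by rw [hRe]; linarith)
  have c1 : ((3 * i : ℕ) : ℝ) ≤ M := by exact_mod_cast (by omega : 3 * i ≤ M)
  have c2 : (M : ℝ) ≤ ((3 * i + 2 : ℕ) : ℝ) := by exact_mod_cast (by omega : M ≤ 3 * i + 2)
  have c3 : (M : ℝ) ≤ ((2 * c : ℕ) : ℝ) := by exact_mod_cast (by omega : M ≤ 2 * c)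
  have c4 : ((2 * c : ℕ) : ℝ) ≤ M + 1 := by exact_mod_cast (by omega : 2 * c ≤ M + 1)
  push_cast at c1 c2 c3 c4
  have key : ∀ (n : ℕ) (t : ℝ), |3 * (n : ℝ) - t * Rh M| ≤ 6 → n < 2 * M + 1 → 0 ≤ t → t ≤ 6 →
      |lob (π * n / Rh M) - lob (π * (t / 3))| ≤ ε / 6 := by
    intro n t h1 h2 h3 h4
    refine hu _ ⟨by positivity, ?_⟩ _ ⟨by positivity, by nlinarith⟩ ?_
    · rw [div_le_iff₀ hR, hRe]
      have : (n : ℝ) ≤ 2 * M + 1 := by exact_mod_cast h2.le
      nlinarith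
    · refine lt_of_le_of_lt ?_ hdel
      have e1 : π * n / Rh M - π * (t / 3) = π / (3 * Rh M) * (3 * n - t * Rh M) := by
        field_simp
      rw [e1, abs_mul, abs_of_pos (by positivity)]
      calc π / (3 * Rh M) * |3 * (n : ℝ) - t * Rh M| ≤ π / (3 * Rh M) * 6 :=
            mul_le_mul_of_nonneg_left h1 (by positivity)
        _ = 2 * π / Rh M := by
            field_simp
            ring
  have k1 := (abs_le.1 (key i 1 (by rw [abs_le, hRe]; constructor <;> linarith) (by omega) (by norm_num)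
    (by norm_num))).1
  have k2 := (abs_le.1 (key (2 * c + i + 1) 4 (by rw [abs_le, hRe]; push_cast; constructor <;> linarith) (by omega)
    (by norm_num) (by norm_num))).1
  have k3 := (abs_le.1 (key (2 * c + 2 * i + 1) 5 (by rw [abs_le, hRe]; push_cast; constructor <;> linarith) (by omega)
    (by norm_num) (by norm_num))).2
  have l1 : lob (π * (1 / 3)) = lob (π / 3) := by congr 1; ring
  have l2 : lob (π * (4 / 3)) = lob (π / 3) := by
    rw [← EvenVol.LobIneq.lob_per (π / 3)]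
    congr 1
    ring
  have l3 : lob (π * (5 / 3)) = -lob (π / 3) := by
    rw [← Pool.Agent.Y482.CY.lob_refl', ← EvenVol.LobIneq.lob_per (π - π / 3)]
    congr 1
    ring
  rw [l1] at k1
  rw [l2] at k2
  rw [l3] at k3
  have hsum : 3 * lob (π / 3) - ε / 2 ≤ lob (π * (i : ℝ) / Rh M) + lob (π * ((2 * c + i + 1 : ℕ) : ℝ) / Rh M) -
      lob (π * ((2 * c + 2 * i + 1 : ℕ) : ℝ) / Rh M) := by
    linarith
  have hsum2 := mul_le_mul_of_nonneg_left hsum (div_pos hR hp).le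
  refine le_trans ?_ (sub_le_sub_right hsum2 _)
  have e5 : (2 * (M : ℝ) + 1) / (2 * π) = Rh M / π := by
    rw [hRe]
    field_simp
  rw [e5, mul_sub]
  have e6 : Rh M / π * (ε / 2) ≤ M * (ε / 2) := by
    refine mul_le_mul_of_nonneg_right ?_ (by positivity)
    rw [div_le_iff₀ hp, hRe]
    nlinarith
  linarith


end Pool.Agent.H49.CYC
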