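import Pool.Agent.H62.CYC.Defs
import Pool.Agent.H49.CYC.Gr0

/-!
# Project CYC, GR: the growth of the binomials
-/

set_option autoImplicit false

namespace Pool.Agent.H49.CYC

open Pool.Agent.H62.CYC

theorem gr : S_GR := ⟨grA, grB, grC⟩

end Pool.Agent.H49.CYC
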