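import Pool.Agent.H62.CYC.DefsX
import Pool.Agent.H49.CYC.Gr0
import Pool.Graph.R_seed8.W709.QAT.Calc

/-!
# Project CYC, V8 and GR2: the growth for the second family
-/

set_option autoImplicit false

namespace Pool.Agent.H49.CYC

open Finset Filter
open Pool.Agent.H62.CYC
open Pool.Agent.W707.TV (vh Rh Rh_pos)
open GapVol (lob lob_cont)
open scoped Real Topology

theorem v8 : S_V8 := by
  intro x y
  have hp := Real.pi_pos
  obtain ⟨b, hb0, hb1, hb⟩ := Pool.Agent.W709.QAT.red y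
  obtain ⟨m, hm⟩ : ∃ m : ℤ, m = ⌊x / π⌋ := ⟨_, rfl⟩
  have hx0 : 0 ≤ x - m * π := by
    have h1 := Int.floor_le (x / π)
    rw [← hm, le_div_iff₀ hp] at h1
    linarith
  have hx1 : x - m * π ≤ π := by
    have h1 := (Int.lt_floor_add_one (x / π)).le
    rw [← hm, div_le_iff₀ hp] at h1
    linarith
  have hper := EvenVol.LobIneq.lob_per
  have e1 : lob x = lob (x - m * π) := (hper.sub_int_mul_eq m).symm
  have e2 : lob (x + b) = lob (x - m * π + b) := by
    rw [← hper.sub_int_mul_eq m]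
    congr 1
    ring
  have e3 : lob (x - b) = lob (x - m * π - b) := by
    rw [← hper.sub_int_mul_eq m]
    congr 1
    ring
  rw [hb x, e1, e2, e3]
  have := EvenVol.LobIneq.FF_le1 hx0 hx1 hb0 hb1
  unfold EvenVol.LobIneq.FF at this
  exact this

/-! ### The cosines -/

/-- `|2 cos (π j / r)|` -/
noncomputable def cc (M : ℕ) (j : ℕ) : ℝ := |2 * Real.cos (π * j / (2 * M + 1))|

lemma cc_refl {M j : ℕ} (h : j ≤ 2 * M + 1) : cc M (2 * M + 1 - j) = cc M j := by
  unfold cc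
  have hM : (2 * (M : ℝ) + 1) ≠ 0 := by positivity
  have e : π * ((2 * M + 1 - j : ℕ) : ℝ) / (2 * M + 1) = π - π * j / (2 * M + 1) := by
    push_cast [Nat.cast_sub h]
    field_simp
  rw [e, Real.cos_pi_sub, mul_neg, abs_neg]

lemma cc_eq {M j : ℕ} (h : j ≤ M) : cc M j = 2 * Real.cos (π * j / (2 * M + 1)) := by
  unfold cc
  have hp := Real.pi_pos
  have hM : (0 : ℝ) < 2 * M + 1 := by positivity
  have hj : (j : ℝ) ≤ M := by exact_mod_cast h
  refine abs_of_nonneg (mul_nonneg (by norm_num) (Real.cos_nonneg_of_neg_pi_div_two_le_of_le ?_ ?_))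
  · have : 0 ≤ π * j / (2 * M + 1) := by positivity
    linarith
  · rw [div_le_iff₀ hM]
    nlinarith

lemma cc_anti {M i j : ℕ} (hij : i ≤ j) (h : j ≤ M) : cc M j ≤ cc M i := by
  rw [cc_eq h, cc_eq (hij.trans h)]
  have hp := Real.pi_pos
  have hM : (0 : ℝ) < 2 * M + 1 := by positivity
  have hj : (j : ℝ) ≤ M := by exact_mod_cast h
  have hi : (i : ℝ) ≤ j := by exact_mod_cast hij
  refine mul_le_mul_of_nonneg_left (Real.cos_le_cos_of_nonneg_of_le_pi (by positivity) ?_ ?_) (by norm_num)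
  · rw [div_le_iff₀ hM]
    nlinarith
  · gcongr

lemma cc_two (M j : ℕ) : cc M j ≤ 2 := by
  unfold cc
  rw [abs_mul, abs_two]
  have := Real.abs_cos_le_one (π * j / (2 * M + 1))
  linarith

lemma cc_M (M : ℕ) : 2 / (2 * (M : ℝ) + 1) ≤ cc M M := by
  rw [cc_eq le_rfl]
  have hp := Real.pi_pos
  have hM : (0 : ℝ) < 2 * M + 1 := by positivity
  have e : π * M / (2 * M + 1) = π / 2 - π / (2 * (2 * M + 1)) := by
    field_simp
    ring
  rw [e, Real.cos_pi_div_two_sub]
  have h1 := Real.mul_le_sin (x := π / (2 * (2 * M + 1))) (by positivity) (by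
    rw [div_le_div_iff₀ (by positivity) (by norm_num)]
    nlinarith)
  have e2 : 2 / π * (π / (2 * (2 * (M : ℝ) + 1))) = 1 / (2 * M + 1) := by
    field_simp
  rw [e2] at h1
  have e3 : 2 / (2 * (M : ℝ) + 1) = 2 * (1 / (2 * M + 1)) := by ring
  rw [e3]
  linarith

lemma cc_low {M j : ℕ} (h : j ≤ 2 * M + 1) : 2 / (2 * (M : ℝ) + 1) ≤ cc M j := by
  rcases Nat.lt_or_ge M j with h1 | h1
  · rw [← cc_refl h]
    exact (cc_M M).trans (cc_anti (by omega) le_rfl)
  · exact (cc_M M).trans (cc_anti h1 le_rfl)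

lemma cc_pos {M j : ℕ} (h : j ≤ 2 * M + 1) : 0 < cc M j := lt_of_lt_of_le (by positivity) (cc_low h)

/-- the logarithm -/
noncomputable def lc (M j : ℕ) : ℝ := Real.log (cc M j)

lemma lc_abs {M j : ℕ} (h : j ≤ 2 * M + 1) : |lc M j| ≤ Real.log (2 * M + 1) + 1 := by
  unfold lc
  have h1 := Real.log_le_log (by positivity) (cc_low h)
  have h2 := Real.log_le_log (cc_pos h) (cc_two M j)
  have h3 : Real.log 2 ≤ 1 := by
    have := Real.log_two_lt_d9
    linarith
  have h4 : 0 ≤ Real.log (2 * (M : ℝ) + 1) := Real.log_nonneg (by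
    have : (0 : ℝ) ≤ M := by positivity
    linarith)
  have h5 : Real.log (2 / (2 * (M : ℝ) + 1)) = Real.log 2 - Real.log (2 * M + 1) :=
    Real.log_div (by norm_num) (by positivity)
  have h6 : 0 ≤ Real.log 2 := Real.log_nonneg (by norm_num)
  rw [h5] at h1
  rw [abs_le]
  constructor <;> linarith

/-- the variation -/
noncomputable def hh (M n : ℕ) : ℝ := if n ≤ M then lc M 0 - lc M n else lc M 0 - lc M M + (lc M n - lc M (M + 1))

lemma lc_anti {M i j : ℕ} (hij : i ≤ j) (h : j ≤ M) : lc M j ≤ lc M i :=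
  Real.log_le_log (cc_pos (by omega)) (cc_anti hij h)

lemma lc_mono {M i j : ℕ} (h0 : M + 1 ≤ i) (hij : i ≤ j) (h : j ≤ 2 * M + 1) : lc M i ≤ lc M j := by
  unfold lc
  rw [← cc_refl (M := M) (j := i) (by omega), ← cc_refl h]
  exact Real.log_le_log (cc_pos (by omega)) (cc_anti (by omega) (by omega))

lemma var_eq (M n : ℕ) (h : n ≤ 2 * M + 1) : ∑ j ∈ range n, |lc M (j + 1) - lc M j| = hh M n := by
  induction n with
  | zero => simp [hh]
  | succ n ih =>
    rw [sum_range_succ, ih (by omega)]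
    unfold hh
    rcases Nat.lt_trichotomy n M with h1 | h1 | h1
    · rw [if_pos h1.le, if_pos (by omega), abs_of_nonpos (sub_nonpos.2 (lc_anti (by omega) (by omega)))]
      ring
    · subst h1
      have e : lc n (n + 1) = lc n n := by
        unfold lc
        rw [← cc_refl (M := n) (j := n) (by omega)]
        congr 2
        omega
      rw [if_pos le_rfl, if_neg (by omega), e]
      simp
    · rw [if_neg (by omega), if_neg (by omega), abs_of_nonneg (sub_nonneg.2 (lc_mono (by omega) (by omega) (by omega)))]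
      ring

lemma var_le {M n : ℕ} (h : n ≤ 2 * M + 1) :
    ∑ j ∈ range n, |lc M (j + 1) - lc M j| ≤ 4 * (Real.log (2 * M + 1) + 1) := by
  rw [var_eq M n h]
  have h0 := abs_le.1 (lc_abs (M := M) (j := 0) (by omega))
  have h1 := abs_le.1 (lc_abs (M := M) (j := n) (by omega))
  have h2 := abs_le.1 (lc_abs (M := M) (j := M) (by omega))
  have h3 := abs_le.1 (lc_abs (M := M) (j := M + 1) (by omega))
  unfold hh
  split_ifs <;> linarith [h0.1, h0.2, h1.1, h1.2, h2.1, h2.2, h3.1, h3.2]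

/-- the product of the cosines -/
lemma alt_le {M k : ℕ} (h : 2 * k + 1 ≤ 2 * M + 1) :
    |∑ m ∈ range k, lc M (2 * m + 2) - ∑ m ∈ range (k + 1), lc M (2 * m + 1)| ≤
      5 * (Real.log (2 * M + 1) + 1) := by
  have h1 : ∑ m ∈ range k, |lc M (2 * m + 2) - lc M (2 * m + 1)| ≤
      ∑ j ∈ range (2 * k), |lc M (j + 1) - lc M j| := by
    clear h
    induction k with
    | zero => simp
    | succ k ih =>
      rw [sum_range_succ, show 2 * (k + 1) = 2 * k + 1 + 1 by ring, sum_range_succ, sum_range_succ]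
      have := abs_nonneg (lc M (2 * k + 1) - lc M (2 * k))
      have e : 2 * k + 1 + 1 = 2 * k + 2 := by ring
      rw [e]
      linarith
  have h2 := var_le (M := M) (n := 2 * k) (by omega)
  have h3 := lc_abs (M := M) (j := 2 * k + 1) (by omega)
  have e : ∑ m ∈ range k, lc M (2 * m + 2) - ∑ m ∈ range (k + 1), lc M (2 * m + 1) =
      ∑ m ∈ range k, (lc M (2 * m + 2) - lc M (2 * m + 1)) - lc M (2 * k + 1) := by
    rw [sum_range_succ, sum_sub_distrib]
    ring
  rw [e]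
  have h4 := abs_sum_le_sum_abs (fun m => lc M (2 * m + 2) - lc M (2 * m + 1)) (range k)
  have h5 := abs_sub (∑ m ∈ range k, (lc M (2 * m + 2) - lc M (2 * m + 1))) (lc M (2 * k + 1))
  linarith

/-! ### The products -/

lemma sg_even (M m : ℕ) : sg M (((2 * m + 1 : ℕ) : ℝ) + 1) =
    sg M ((m : ℝ) + 1) * (2 * Real.cos (π * (2 * m + 2) / (2 * M + 1))) := by
  unfold sg
  have e : 2 * π * (((2 * m + 1 : ℕ) : ℝ) + 1) / (2 * (M : ℝ) + 1) = 2 * (π * (2 * m + 2) / (2 * M + 1)) := by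
    push_cast
    ring
  have e2 : 2 * π * ((m : ℝ) + 1) / (2 * (M : ℝ) + 1) = π * (2 * m + 2) / (2 * M + 1) := by ring
  rw [e, e2, Real.sin_two_mul]
  ring

lemma sin_odd {M m : ℕ} (h : m ≤ M) : 2 * Real.sin (π * (2 * m + 1) / (2 * M + 1)) = sg M ((M - m : ℕ) : ℝ) := by
  unfold sg
  have hM : (2 * (M : ℝ) + 1) ≠ 0 := by positivity
  have e : 2 * π * ((M - m : ℕ) : ℝ) / (2 * (M : ℝ) + 1) = π - π * (2 * m + 1) / (2 * M + 1) := by
    push_cast [Nat.cast_sub h]
    field_simp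
    ring
  rw [e, Real.sin_pi_sub]

lemma sg_odd {M m : ℕ} (h : m ≤ M) : sg M (((2 * m : ℕ) : ℝ) + 1) =
    sg M ((M - m : ℕ) : ℝ) * (2 * Real.cos (π * (2 * m + 1) / (2 * M + 1))) := by
  rw [← sin_odd h]
  unfold sg
  have e : 2 * π * (((2 * m : ℕ) : ℝ) + 1) / (2 * (M : ℝ) + 1) = 2 * (π * (2 * m + 1) / (2 * M + 1)) := by
    push_cast
    ring
  rw [e, Real.sin_two_mul]
  ring

/-- `σ(M) σ(M-1) ⋯ σ(M-k)` -/
noncomputable def AA (M k : ℕ) : ℝ := ∏ m ∈ range (k + 1), sg M ((M - m : ℕ) : ℝ)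

/-- the even cosines -/
noncomputable def BB (M k : ℕ) : ℝ := ∏ m ∈ range k, cc M (2 * m + 2)

/-- the odd cosines -/
noncomputable def CC (M k : ℕ) : ℝ := ∏ m ∈ range (k + 1), cc M (2 * m + 1)

lemma sg_pos_nat {M n : ℕ} (h0 : 0 < n) (h1 : n ≤ M) : 0 < sg M n := by
  refine sg_pos (by exact_mod_cast h0) ?_
  have : 2 * n < 2 * M + 1 := by omega
  exact_mod_cast this

lemma AA_pos {M k : ℕ} (h : k + 1 ≤ M) : 0 < AA M k :=
  prod_pos fun m hm => sg_pos_nat (by have := mem_range.1 hm; omega) (by omega)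

lemma BB_pos {M k : ℕ} (h : k + 1 ≤ M) : 0 < BB M k :=
  prod_pos fun m hm => cc_pos (by have := mem_range.1 hm; omega)

lemma CC_pos {M k : ℕ} (h : k + 1 ≤ M) : 0 < CC M k :=
  prod_pos fun m hm => cc_pos (by have := mem_range.1 hm; omega)

lemma AA_eq {M k : ℕ} (h : k + 1 ≤ M) : sf M M = sf M (M - k - 1) * AA M k := by
  have e : M = M - k - 1 + (k + 1) := by omega
  have h1 := sf_add M (M - k - 1) (k + 1)
  rw [← e] at h1
  rw [h1]
  congr 1
  unfold AA
  rw [← prod_range_reflect]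
  refine prod_congr rfl fun j hj => ?_
  have hj' := mem_range.1 hj
  congr 1
  have e2 : M - k - 1 + (k + 1 - 1 - j) + 1 = M - j := by omega
  have e3 : (((M - k - 1 + (k + 1 - 1 - j) + 1 : ℕ)) : ℝ) = ((M - j : ℕ) : ℝ) := by rw [e2]
  rw [← e3]
  push_cast
  ring

lemma sf_abs {M k : ℕ} (h : k + 1 ≤ M) : |sf M (2 * k + 1)| = AA M k * CC M k * (sf M k * BB M k) := by
  induction k with
  | zero =>
    unfold sf AA CC BB
    have h1 := sg_odd (M := M) (m := 0) (by omega)
    simp only [mul_zero, zero_add, Nat.cast_zero, prod_range_one, prod_range_zero, mul_one, Nat.sub_zero] at h1 ⊢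
    rw [h1, abs_mul, abs_of_pos (sg_pos_nat (by omega) le_rfl)]
    unfold cc
    simp
  | succ k ih =>
    have ih := ih (by omega)
    have e1 : sf M (2 * (k + 1) + 1) = sf M (2 * k + 1) * sg M (((2 * k + 1 : ℕ) : ℝ) + 1) *
        sg M (((2 * (k + 1) : ℕ) : ℝ) + 1) := by
      unfold sf
      rw [show 2 * (k + 1) + 1 = 2 * k + 1 + 1 + 1 by ring, prod_range_succ, prod_range_succ]
      rfl
    rw [e1, abs_mul, abs_mul, ih, sg_even, sg_odd (m := k + 1) (by omega), abs_mul (sg M ((k : ℝ) + 1)),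
      abs_mul (sg M ((M - (k + 1) : ℕ) : ℝ))]
    have p1 : 0 < sg M ((k : ℝ) + 1) := by
      have := sg_pos_nat (M := M) (n := k + 1) (by omega) (by omega)
      push_cast at this
      exact this
    rw [abs_of_pos p1, abs_of_pos (sg_pos_nat (M := M) (n := M - (k + 1)) (by omega) (by omega))]
    have c1 : |2 * Real.cos (π * (2 * (k : ℝ) + 2) / (2 * M + 1))| = cc M (2 * k + 2) := by
      unfold cc
      push_cast
      rfl
    have c2 : |2 * Real.cos (π * (2 * ((k + 1 : ℕ) : ℝ) + 1) / (2 * M + 1))| = cc M (2 * (k + 1) + 1) := by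
      unfold cc
      push_cast
      rfl
    rw [c1, c2]
    have d1 : AA M (k + 1) = AA M k * sg M ((M - (k + 1) : ℕ) : ℝ) := prod_range_succ _ _
    have d2 : CC M (k + 1) = CC M k * cc M (2 * (k + 1) + 1) := prod_range_succ _ _
    have d3 : BB M (k + 1) = BB M k * cc M (2 * k + 2) := prod_range_succ _ _
    have d4 : sf M (k + 1) = sf M k * sg M ((k : ℝ) + 1) := prod_range_succ _ _
    rw [d1, d2, d3, d4]
    ring

lemma Ek_eq {M k : ℕ} (h : k + 1 ≤ M) : Ek M k = AA M k ^ 2 * BB M k ^ 2 := by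
  unfold Ek AA BB
  rw [← prod_pow, ← prod_pow]
  congr 1
  · refine prod_congr rfl fun m hm => ?_
    rw [sin_odd (by have := mem_range.1 hm; omega)]
  · refine prod_congr rfl fun m _ => ?_
    unfold cc
    rw [sq_abs]
    push_cast
    rfl

lemma sf_ne' {M n : ℕ} (h : n < 2 * M + 1) : 0 < |sf M n| := abs_pos.2 (sf_ne h)

lemma g2_abs {M c i : ℕ} (h : c + i + 1 ≤ M) : |g2 M c i| =
    AA M (c + i) * BB M (c + i) * |sf M (c + i)| / (CC M (c + i) * (|sf M i| * |sf M (2 * c + i + 1)|)) := by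
  unfold g2
  have e : 2 * c + 2 * i + 1 = 2 * (c + i) + 1 := by ring
  rw [abs_div, abs_mul, abs_mul, abs_mul, e, sf_abs h, Ek_eq h, abs_of_pos (by have := AA_pos h; have := BB_pos h; positivity),
    abs_of_nonneg (sq_nonneg (sf M (c + i)))]
  have h1 := AA_pos h
  have h2 := BB_pos h
  have h3 := CC_pos h
  have h4 := sf_pos (M := M) (n := c + i) (by omega)
  have h5 := sf_ne' (M := M) (n := i) (by omega)
  have h6 := sf_ne' (M := M) (n := 2 * c + i + 1) (by omega)
  rw [abs_of_pos h4]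
  field_simp

lemma g2_log {M c i : ℕ} (h : c + i + 1 ≤ M) :
    |Real.log |g2 M c i| - (Real.log |sf M M| - Real.log |sf M (M - (c + i) - 1)| + Real.log |sf M (c + i)| -
      Real.log |sf M i| - Real.log |sf M (2 * c + i + 1)|)| ≤ 5 * (Real.log (2 * M + 1) + 1) := by
  have h1 := AA_pos h
  have h2 := BB_pos h
  have h3 := CC_pos h
  have h4 := sf_ne' (M := M) (n := c + i) (by omega)
  have h5 := sf_ne' (M := M) (n := i) (by omega)
  have h6 := sf_ne' (M := M) (n := 2 * c + i + 1) (by omega)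
  have h7 := sf_ne' (M := M) (n := M - (c + i) - 1) (by omega)
  have hA : Real.log |sf M M| = Real.log |sf M (M - (c + i) - 1)| + Real.log (AA M (c + i)) := by
    rw [AA_eq h, abs_mul, abs_of_pos h1, Real.log_mul h7.ne' h1.ne']
  rw [g2_abs h, Real.log_div (by positivity) (by positivity), Real.log_mul (by positivity) h4.ne',
    Real.log_mul h1.ne' h2.ne', Real.log_mul h3.ne' (by positivity), Real.log_mul h5.ne' h6.ne', hA]
  have hB : Real.log (BB M (c + i)) = ∑ m ∈ range (c + i), lc M (2 * m + 2) :=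
    Real.log_prod (fun m hm => (cc_pos (by have := mem_range.1 hm; omega)).ne')
  have hC : Real.log (CC M (c + i)) = ∑ m ∈ range (c + i + 1), lc M (2 * m + 1) :=
    Real.log_prod (fun m hm => (cc_pos (by have := mem_range.1 hm; omega)).ne')
  have h8 := alt_le (M := M) (k := c + i) (by omega)
  rw [← hB, ← hC] at h8
  refine le_trans (le_of_eq ?_) h8
  congr 1
  ring

/-! ### The growth -/

/-- the main term -/
noncomputable def Ph (M c i : ℕ) : ℝ :=
  lob (π * (c + i : ℕ) / Rh M - π * c / Rh M) + lob (π * (c + i : ℕ) / Rh M + π * c / Rh M) -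
    2 * lob (π * (c + i : ℕ) / Rh M)

lemma lob_pi' : lob π = 0 := by
  have := Pool.Agent.W709.QAT.lob_pi_sub 0
  rw [sub_zero, GapVol.lob_zero, neg_zero] at this
  exact this

lemma growth (ε : ℝ) (hε : 0 < ε) : ∀ᶠ M : ℕ in atTop, ∀ c i : ℕ, c + i + 1 ≤ M →
    |Real.log |g2 M c i| - Rh M / π * Ph M c i| ≤ ε * M := by
  obtain ⟨δ, hδ, hu⟩ := Pool.Agent.W125.TV.lob_uc (show 0 < ε / 12 by positivity)
  have t3 : ∀ᶠ M : ℕ in atTop, 2 * π / (M : ℝ) < δ :=
    (tendsto_const_div_atTop_nhds_zero_nat (2 * π)).eventually (gt_mem_nhds hδ)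
  have t4 : ∀ᶠ M : ℕ in atTop, 5 * (Real.log (2 * M + 1) + 1) ≤ ε / 4 * M := by
    have h1 : Tendsto (fun x : ℝ => Real.log x / x) atTop (𝓝 0) := by
      simpa using Real.tendsto_pow_log_div_mul_add_atTop 1 0 1 one_ne_zero
    have h2 : Tendsto (fun M : ℕ => (2 * (M : ℝ) + 1)) atTop atTop :=
      tendsto_atTop_add_const_right _ _ (tendsto_natCast_atTop_atTop.const_mul_atTop (by norm_num))
    have h3 := (h1.comp h2).eventually (gt_mem_nhds (show 0 < ε / 120 by positivity))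
    have h4 : ∀ᶠ M : ℕ in atTop, 40 / ε + 1 ≤ (M : ℝ) := tendsto_natCast_atTop_atTop.eventually_ge_atTop _
    filter_upwards [h3, h4] with M h3 h4
    have hM : 0 < 2 * (M : ℝ) + 1 := by positivity
    simp only [Function.comp] at h3
    rw [div_lt_iff₀ hM] at h3
    have h5 : 40 ≤ ε * M := by
      have h6 : 40 / ε ≤ M := by linarith
      rw [div_le_iff₀ hε] at h6
      linarith
    have h7 : 1 ≤ (M : ℝ) := by
      have : 0 < 40 / ε := by positivity
      linarith
    have h8 : ε * (2 * (M : ℝ) + 1) ≤ 3 * (ε * M) := by nlinarith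
    nlinarith
  filter_upwards [Pool.Agent.W125.TV.brf_asymp (ε / 20) (by positivity), t3, t4, eventually_ge_atTop 2] with
    M hB hM hlog hM1 c i hci
  have hp := Real.pi_pos
  have hp3 := Real.pi_gt_three
  have hR := Rh_pos M
  have hRe : Rh M = M + 1 / 2 := rfl
  have hMr : (2 : ℝ) ≤ M := by exact_mod_cast hM1
  have hM0 : (0 : ℝ) < M := by linarith
  have hdel : 2 * π / Rh M < δ := by
    refine lt_of_le_of_lt ?_ hM
    exact div_le_div_of_nonneg_left (by positivity) hM0 (by rw [hRe]; linarith)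
  have hcir : ((c : ℝ) + i) + 1 ≤ M := by exact_mod_cast hci
  have hc0 : (0 : ℝ) ≤ c := by positivity
  have hi0 : (0 : ℝ) ≤ i := by positivity
  have h0 := g2_log hci
  have b : ∀ n : ℕ, n < 2 * M + 1 → |Real.log |sf M n| + Rh M / π * lob (π * n / Rh M)| ≤ ε / 20 * M := by
    intro n hn
    have := hB n hn
    rwa [norm_brf] at this
  have b1 := abs_le.1 (b M (by omega))
  have b2 := abs_le.1 (b (M - (c + i) - 1) (by omega))
  have b3 := abs_le.1 (b (c + i) (by omega))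
  have b4 := abs_le.1 (b i (by omega))
  have b5 := abs_le.1 (b (2 * c + i + 1) (by omega))
  have key : ∀ s t : ℝ, 0 ≤ s → s ≤ 2 * Rh M → 0 ≤ t → t ≤ 2 * Rh M → |s - t| ≤ 2 →
      |lob (π * s / Rh M) - lob (π * t / Rh M)| ≤ ε / 12 := by
    intro s t h1 h2 h3 h4 h5
    refine hu _ ⟨by positivity, ?_⟩ _ ⟨by positivity, ?_⟩ ?_
    · rw [div_le_iff₀ hR]
      nlinarith
    · rw [div_le_iff₀ hR]
      nlinarith
    · refine lt_of_le_of_lt ?_ hdel
      have e1 : π * s / Rh M - π * t / Rh M = π / Rh M * (s - t) := by ring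
      rw [e1, abs_mul, abs_of_pos (by positivity)]
      calc π / Rh M * |s - t| ≤ π / Rh M * 2 := mul_le_mul_of_nonneg_left h5 (by positivity)
        _ = 2 * π / Rh M := by ring
  have k1 := key M (Rh M) hM0.le (by linarith) hR.le (by linarith) (by rw [abs_le, hRe]; constructor <;> linarith)
  have hc2 : ((M - (c + i) - 1 : ℕ) : ℝ) = (M : ℝ) - (c + i) - 1 := by
    rw [Nat.cast_sub (by omega), Nat.cast_sub (by omega)]
    push_cast
    ring
  have k2 := key (M - (c + i) - 1 : ℕ) (Rh M - (c + i)) (by positivity) (by rw [hc2]; linarith) (by linarith)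
    (by linarith) (by rw [abs_le, hRe, hc2]; constructor <;> linarith)
  have k3 := key (2 * c + i + 1 : ℕ) (2 * c + i) (by positivity) (by push_cast; rw [hRe]; linarith) (by positivity)
    (by rw [hRe]; linarith) (by rw [abs_le]; push_cast; constructor <;> linarith)
  have e1 : π * Rh M / Rh M = π := by field_simp
  have e2 : π * (Rh M - (c + i)) / Rh M = π - π * (c + i : ℕ) / Rh M := by
    push_cast
    field_simp
  rw [e1, lob_pi'] at k1
  rw [e2, Pool.Agent.W709.QAT.lob_pi_sub] at k2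
  have e3 : π * (c + i : ℕ) / Rh M - π * c / Rh M = π * i / Rh M := by
    push_cast
    ring
  have e4 : π * (c + i : ℕ) / Rh M + π * c / Rh M = π * (2 * c + i) / Rh M := by
    push_cast
    ring
  have hPh : |Ph M c i - (-lob (π * M / Rh M) + lob (π * (M - (c + i) - 1 : ℕ) / Rh M) - lob (π * (c + i : ℕ) / Rh M) +
      lob (π * i / Rh M) + lob (π * (2 * c + i + 1 : ℕ) / Rh M))| ≤ ε / 4 := by
    unfold Ph
    rw [e3, e4]
    rw [abs_le] at k1 k2 k3 ⊢
    constructor <;> linarith [k1.1, k1.2, k2.1, k2.2, k3.1, k3.2]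
  have hRM : Rh M / π ≤ M := by
    rw [div_le_iff₀ hp, hRe]
    nlinarith
  have hPh2 : |Rh M / π * Ph M c i - Rh M / π * (-lob (π * M / Rh M) + lob (π * (M - (c + i) - 1 : ℕ) / Rh M) -
      lob (π * (c + i : ℕ) / Rh M) + lob (π * i / Rh M) + lob (π * (2 * c + i + 1 : ℕ) / Rh M))| ≤ ε / 4 * M := by
    rw [← mul_sub, abs_mul, abs_of_pos (div_pos hR hp)]
    calc _ ≤ Rh M / π * (ε / 4) := mul_le_mul_of_nonneg_left hPh (div_pos hR hp).le
      _ ≤ M * (ε / 4) := mul_le_mul_of_nonneg_right hRM (by positivity)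
      _ = _ := by ring
  rw [abs_le] at h0 hPh2 ⊢
  simp only [mul_sub, mul_add, mul_neg] at hPh2 ⊢
  constructor <;> linarith [h0.1, h0.2, hPh2.1, hPh2.2, b1.1, b1.2, b2.1, b2.2, b3.1, b3.2, b4.1, b4.2, b5.1, b5.2]

lemma g2_pos' {M c i : ℕ} (h : c + i + 1 ≤ M) : 0 < |g2 M c i| := by
  rw [g2_abs h]
  have h1 := AA_pos h
  have h2 := BB_pos h
  have h3 := CC_pos h
  have h4 := sf_ne' (M := M) (n := c + i) (by omega)
  have h5 := sf_ne' (M := M) (n := i) (by omega)
  have h6 := sf_ne' (M := M) (n := 2 * c + i + 1) (by omega)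
  positivity

lemma g21 (ε : ℝ) (hε : 0 < ε) : ∀ᶠ M : ℕ in atTop, ∀ c i : ℕ, c + i + 1 ≤ M →
    |g2 M c i| ≤ Real.exp ((2 * M + 1) / (2 * π) * (4 * lob (π / 4)) + ε * M) := by
  filter_upwards [growth ε hε] with M hM c i hci
  rw [← Real.log_le_iff_le_exp (g2_pos' hci)]
  have h1 := (abs_le.1 (hM c i hci)).2
  have h2 := v8 (π * (c + i : ℕ) / Rh M) (π * c / Rh M)
  have hR := Rh_pos M
  have h3 := mul_le_mul_of_nonneg_left h2 (div_pos hR Real.pi_pos).le
  have hRe : Rh M = M + 1 / 2 := rfl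
  have e5 : (2 * (M : ℝ) + 1) / (2 * π) = Rh M / π := by
    rw [hRe]
    field_simp
  rw [e5]
  unfold Ph at h1
  linarith

lemma g22 (ε : ℝ) (hε : 0 < ε) : ∀ᶠ M : ℕ in atTop, ∃ c i : ℕ, c + i + 1 ≤ M ∧ M ≤ 2 * c ∧
    Real.exp ((2 * M + 1) / (2 * π) * (4 * lob (π / 4)) - ε * M) ≤ |g2 M c i| := by
  obtain ⟨δ, hδ, hu⟩ := Pool.Agent.W125.TV.lob_uc (show 0 < ε / 8 by positivity)
  have t3 : ∀ᶠ M : ℕ in atTop, 2 * π / (M : ℝ) < δ :=
    (tendsto_const_div_atTop_nhds_zero_nat (2 * π)).eventually (gt_mem_nhds hδ)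
  filter_upwards [growth (ε / 2) (by positivity), t3, eventually_ge_atTop 12] with M hg hM hM1
  obtain ⟨c, hc⟩ : ∃ c : ℕ, c = (M + 1) / 2 := ⟨_, rfl⟩
  obtain ⟨i, hi⟩ : ∃ i : ℕ, i = M / 4 := ⟨_, rfl⟩
  have hci : c + i + 1 ≤ M := by omega
  refine ⟨c, i, hci, by omega, ?_⟩
  have hp := Real.pi_pos
  have hp3 := Real.pi_gt_three
  have hR := Rh_pos M
  have hRe : Rh M = M + 1 / 2 := rfl
  have hMr : (12 : ℝ) ≤ M := by exact_mod_cast hM1
  have hM0 : (0 : ℝ) < M := by linarith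
  rw [← Real.le_log_iff_exp_le (g2_pos' hci)]
  have h := (abs_le.1 (hg c i hci)).1
  have hdel : 2 * π / Rh M < δ := by
    refine lt_of_le_of_lt ?_ hM
    exact div_le_div_of_nonneg_left (by positivity) hM0 (by rw [hRe]; linarith)
  have c1 : ((4 * i : ℕ) : ℝ) ≤ M := by exact_mod_cast (by omega : 4 * i ≤ M)
  have c2 : (M : ℝ) ≤ ((4 * i + 3 : ℕ) : ℝ) := by exact_mod_cast (by omega : M ≤ 4 * i + 3)
  have c3 : (M : ℝ) ≤ ((2 * c : ℕ) : ℝ) := by exact_mod_cast (by omega : M ≤ 2 * c)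
  have c4 : ((2 * c : ℕ) : ℝ) ≤ M + 1 := by exact_mod_cast (by omega : 2 * c ≤ M + 1)
  push_cast at c1 c2 c3 c4
  have key : ∀ (s t : ℝ), |4 * s - t * Rh M| ≤ 8 → 0 ≤ s → s ≤ 2 * Rh M → 0 ≤ t → t ≤ 8 →
      |lob (π * s / Rh M) - lob (π * (t / 4))| ≤ ε / 8 := by
    intro s t h1 h2 h2' h3 h4
    refine hu _ ⟨by positivity, ?_⟩ _ ⟨by positivity, by nlinarith⟩ ?_
    · rw [div_le_iff₀ hR]
      nlinarith
    · refine lt_of_le_of_lt ?_ hdel
      have e1 : π * s / Rh M - π * (t / 4) = π / (4 * Rh M) * (4 * s - t * Rh M) := by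
        field_simp
      rw [e1, abs_mul, abs_of_pos (by positivity)]
      calc π / (4 * Rh M) * |4 * s - t * Rh M| ≤ π / (4 * Rh M) * 8 :=
            mul_le_mul_of_nonneg_left h1 (by positivity)
        _ = 2 * π / Rh M := by
            field_simp
            ring
  have k1 := (abs_le.1 (key i 1 (by rw [abs_le, hRe]; constructor <;> linarith) (by positivity)
    (by rw [hRe]; linarith) (by norm_num) (by norm_num))).1
  have k2 := (abs_le.1 (key (2 * c + i) 5 (by rw [abs_le, hRe]; constructor <;> linarith) (by positivity)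
    (by rw [hRe]; linarith) (by norm_num) (by norm_num))).1
  have k3 := (abs_le.1 (key (c + i) 3 (by rw [abs_le, hRe]; constructor <;> linarith) (by positivity)
    (by rw [hRe]; linarith) (by norm_num) (by norm_num))).2
  have l1 : lob (π * (1 / 4)) = lob (π / 4) := by congr 1; ring
  have l2 : lob (π * (5 / 4)) = lob (π / 4) := by
    rw [← EvenVol.LobIneq.lob_per (π / 4)]
    congr 1
    ring
  have l3 : lob (π * (3 / 4)) = -lob (π / 4) := by
    rw [← Pool.Agent.W709.QAT.lob_pi_sub]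
    congr 1
    ring
  rw [l1] at k1
  rw [l2] at k2
  rw [l3] at k3
  have e3 : π * (c + i : ℕ) / Rh M - π * c / Rh M = π * i / Rh M := by
    push_cast
    ring
  have e4 : π * (c + i : ℕ) / Rh M + π * c / Rh M = π * (2 * c + i) / Rh M := by
    push_cast
    ring
  have e6 : π * (c + i : ℕ) / Rh M = π * ((c : ℝ) + i) / Rh M := by
    push_cast
    ring
  have hsum : 4 * lob (π / 4) - ε / 2 ≤ Ph M c i := by
    unfold Ph
    rw [e3, e4, e6]
    linarith
  have hsum2 := mul_le_mul_of_nonneg_left hsum (div_pos hR hp).le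
  have e5 : (2 * (M : ℝ) + 1) / (2 * π) = Rh M / π := by
    rw [hRe]
    field_simp
  rw [e5]
  rw [mul_sub] at hsum2
  have e6 : Rh M / π * (ε / 2) ≤ M * (ε / 2) := by
    refine mul_le_mul_of_nonneg_right ?_ (by positivity)
    rw [div_le_iff₀ hp, hRe]
    nlinarith
  linarith

lemma g23 (M c i : ℕ) (h : c + i + 1 ≤ M) (h2 : M ≤ 2 * c) : 0 < (-1) ^ i * g2 M c i := by
  have h3 := grC M c i h h2
  have h4 : 0 < Ek M (c + i) := by
    rw [Ek_eq h]
    have h1 := AA_pos h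
    have h2 := BB_pos h
    positivity
  have h5 := sf_pos (M := M) (n := c + i) (by omega)
  have h6 := sf_ne (M := M) (n := 2 * c + 2 * i + 1) (by omega)
  have h7 := sf_ne (M := M) (n := 2 * c + i + 1) (by omega)
  have h8 := sf_pos (M := M) (n := i) (by omega)
  have e : (-1) ^ i * g2 M c i = (-1) ^ i * (sf M (2 * c + 2 * i + 1) / (sf M i * sf M (2 * c + i + 1))) *
      (Ek M (c + i) * sf M (c + i) ^ 2 / sf M (2 * c + 2 * i + 1) ^ 2) := by
    unfold g2
    field_simp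
  rw [e]
  exact mul_pos h3 (by positivity)

theorem gr2 : S_GR2 := ⟨g21, g22, g23⟩

end Pool.Agent.H49.CYC
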